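import Mathlib
import Pool.Agent.Helper28.CrFinal

open Set MeasureTheory
open scoped ContDiff InnerProductSpace ENNReal

namespace Pool.Agent.Results.MP_396e7f_gt.AreaMinimisers

open Pool.Agent.Helper28.Cr

/-- Let `r > 0` and let `V` be a smooth tangent field of constant length `r` on a dense open subset
`U ∩ S^2` of the unit sphere, without boundary: the closure `Σ_V` of its graph is an embedded surface
without boundary in `T^r S^2`. Then the area of `Σ_V` for the Sasaki metric is at least the area of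
the surface of the parallel transport field `r P^{a,b}`, for all orthonormal `a`, `b`, and if the two
areas are equal then `V = r P^{a',b'}` on `U ∩ S^2` for some orthonormal `a'`, `b'`. -/
theorem result (r : ℝ) (hr : 0 < r) (U : Set E3) (V : E3 → E3) (hV : IsField r U V)
    (hS : IsSurf r (Sig U V)) (a b : E3) (hab : Orth a b) :
    area (SigP r a b) ≠ ⊤ ∧ area (SigP r a b) ≤ area (Sig U V) ∧
    (area (Sig U V) = area (SigP r a b) →
      ∃ a' b' : E3, Orth a' b' ∧ ∀ x ∈ U, ‖x‖ = 1 → x ≠ -a' ∧ V x = r • Pf a' b' x) := by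
  obtain ⟨hU, hd, hVs, hT⟩ := hV
  have h1 := area_P_le hr hab.1 hab.2.1 hab.2.2
  have h2 := area_ge hr hU hd hVs hT hS
  refine ⟨?_, h1.trans h2, ?_⟩
  · exact ne_top_of_le_ne_top (ENNReal.div_ne_top (MM_int hr) C0_ne_zero) h1
  · intro h
    obtain ⟨a', b', k1, k2, k3, k4⟩ := eq_case hr hU hd hVs hT hS (h ▸ h1)
    exact ⟨a', b', ⟨k1, k2, k3⟩, k4⟩

end Pool.Agent.Results.MP_396e7f_gt.AreaMinimisers
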